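import Mathlib
import Pool.Agent.H530R2.Whb2
import Pool.Agent.H530R2.Rat5

/-!
Base change: some of the variables become scalars.
-/

namespace Pool.Agent.W936.RO

open MvPolynomial Module Pool.Agent.H530R2

section bc

variable {F : Type} [Field F] {n : ℕ}

theorem cut_X_not {K : Type*} [Field K] {n : ℕ} (S : Finset (Fin n)) {i : Fin n} (hS : i ∉ S)
    (c : K) : cut K S (X i + C c) = C c := by
  have h1 : cut K S (C c) = C c := (cut K S).commutes c
  have h2 : cut K S (X i) = 0 := by rw [cut, aeval_X, if_neg hS]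
  rw [map_add, h1, h2, zero_add]

theorem cut_X_mem {K : Type*} [Field K] {n : ℕ} (S : Finset (Fin n)) {i : Fin n} (hS : i ∈ S)
    (c : K) : cut K S (X i + C c) = X i + C c := by
  have h1 : cut K S (C c) = C c := (cut K S).commutes c
  have h2 : cut K S (X i) = X i := by rw [cut, aeval_X, if_pos hS]
  rw [map_add, h1, h2]

/-- the field of rational functions -/
abbrev FF (F : Type) [Field F] (n : ℕ) : Type := FractionRing (MvPolynomial (Fin n) F)

/-- The variables in `Y` become scalars, the others are translated by `σ`. -/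
noncomputable def psi (σ : Fin n → F) (Y : Finset (Fin n)) :
    MvPolynomial (Fin n) F →ₐ[F] MvPolynomial (Fin n) (FF F n) :=
  aeval (fun k => if k ∈ Y then C (algebraMap (MvPolynomial (Fin n) F) (FF F n) (X k))
    else X k + C (algebraMap F (FF F n) (σ k)))

theorem psi_mem (σ : Fin n → F) {Y : Finset (Fin n)} {k : Fin n} (h : k ∈ Y) :
    psi σ Y (X k) = C (algebraMap (MvPolynomial (Fin n) F) (FF F n) (X k)) := by
  rw [psi, aeval_X, if_pos h]

theorem psi_not_mem (σ : Fin n → F) {Y : Finset (Fin n)} {k : Fin n} (h : k ∉ Y) :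
    psi σ Y (X k) = X k + C (algebraMap F (FF F n) (σ k)) := by
  rw [psi, aeval_X, if_neg h]

theorem psi_C (σ : Fin n → F) (Y : Finset (Fin n)) (c : F) :
    psi σ Y (C c) = C (algebraMap F (FF F n) c) := by
  rw [psi, algHom_C]
  rfl

/-- the injection of the ring of the free variables -/
noncomputable def omg (F : Type) [Field F] (n j : ℕ) :
    MvPolynomial (Fin n) (MvPolynomial (Fin j ⊕ Fin j) F) →+*
      MvPolynomial (Fin j ⊕ Fin j) (FF F n) :=
  (map (algebraMap (MvPolynomial (Fin n) F) (FF F n))).comp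
    (commAlgEquiv F (Fin n) (Fin j ⊕ Fin j)).toRingEquiv.toRingHom

theorem omg_inj (j : ℕ) : Function.Injective (omg F n j) := by
  have h1 : Function.Injective (map (algebraMap (MvPolynomial (Fin n) F) (FF F n)) :
      MvPolynomial (Fin j ⊕ Fin j) _ →+* _) :=
    map_injective _ (IsFractionRing.injective _ _)
  exact h1.comp (commAlgEquiv F (Fin n) (Fin j ⊕ Fin j)).injective

theorem omg_X (j : ℕ) (k : Fin n) : omg F n j (X k) =
    C (algebraMap (MvPolynomial (Fin n) F) (FF F n) (X k)) := by
  show map _ ((commAlgEquiv F (Fin n) (Fin j ⊕ Fin j)) (X k)) = _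
  rw [commAlgEquiv_X, map_C]

theorem omg_C (j : ℕ) (p : MvPolynomial (Fin j ⊕ Fin j) F) : omg F n j (C p) =
    map (algebraMap F (FF F n)) p := by
  show map _ ((commAlgEquiv F (Fin n) (Fin j ⊕ Fin j)) (C p)) = _
  rw [commAlgEquiv_C, map_map]
  rfl

variable [CharZero F]

theorem ff_natInj (n : ℕ) : Function.Injective (fun i : Fin n => ((i.val : ℕ) : FF F n)) := by
  have h : Function.Injective (algebraMap F (FF F n)) := (algebraMap F (FF F n)).injective
  intro i j hij
  apply natInj (F := F) n
  apply h
  simpa using hij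

omit [CharZero F] in
/-- the generator commutes with the extension of scalars -/
theorem gen_map (j : ℕ) (f : MvPolynomial (Fin n) F) :
    map (algebraMap F (FF F n)) (gen (fun i : Fin n => ((i.val : ℕ) : F)) j f) =
      gen (fun i : Fin n => ((i.val : ℕ) : FF F n)) j (map (algebraMap F (FF F n)) f) := by
  induction f using MvPolynomial.induction_on with
  | C r =>
    rw [gen, algHom_C, map_C, gen, algHom_C]
    show map (algebraMap F (FF F n)) (C r) = C _
    rw [map_C]
  | add p q hp hq => rw [map_add, map_add, hp, hq, map_add, map_add]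
  | mul_X p i hp =>
    rw [map_mul, map_mul, hp, map_mul, map_mul, map_X]
    congr 1
    rw [gen, aeval_X, gen, aeval_X, map_sum]
    apply Finset.sum_congr rfl
    intro l _
    rw [map_mul, map_X, map_prod]
    congr 1
    apply Finset.prod_congr rfl
    intro j _
    rw [map_sub, map_X, map_C, map_natCast]

omit [CharZero F] in
/-- the diagram of the base change -/
theorem omg_sb (σ : Fin n → F) (Y : Finset (Fin n)) (j : ℕ) (f : MvPolynomial (Fin n) F) :
    omg F n j (sb (fun k => gen (fun i : Fin n => ((i.val : ℕ) : F)) j (X k + C (σ k))) Y f) =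
      gen (fun i : Fin n => ((i.val : ℕ) : FF F n)) j (psi σ Y f) := by
  induction f using MvPolynomial.induction_on with
  | C r =>
    rw [sb_C, omg_C, psi_C, gen, algHom_C]
    show map _ (C r) = _
    rw [map_C]
    rfl
  | add p q hp hq => rw [map_add, map_add, hp, hq, map_add, map_add]
  | mul_X p k hp =>
    rw [map_mul, map_mul, hp, map_mul, map_mul]
    congr 1
    by_cases hk : k ∈ Y
    · rw [sb_X_mem _ hk, omg_X, psi_mem σ hk]
      exact (algHom_C _ _).symm
    · rw [sb_X_not_mem _ hk, omg_C, psi_not_mem σ hk, gen_map, map_add, map_X, map_C]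

/-- the ideals in terms of the generator over the field of rational functions -/
theorem mem_iff_psi (σ : Fin n → F) (Y : Finset (Fin n)) (j : ℕ) (f : MvPolynomial (Fin n) F) :
    f ∈ (shVan (F := F) _ (natInj n) σ).I j Y ↔
      psi σ Y f ∈ genI (fun i : Fin n => ((i.val : ℕ) : FF F n)) j := by
  have h1 : f ∈ (shVan (F := F) _ (natInj n) σ).I j Y ↔
      sb (fun k => gen (fun i : Fin n => ((i.val : ℕ) : F)) j (X k + C (σ k))) Y f = 0 := by
    show f ∈ RingHom.ker (sb (fun k => gen _ (0 + j) (X k + C (σ k))) (Y ∪ ∅)) ↔ _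
    rw [Finset.union_empty, RingHom.mem_ker, Nat.zero_add]
  have h2 : psi σ Y f ∈ genI (fun i : Fin n => ((i.val : ℕ) : FF F n)) j ↔
      gen (fun i : Fin n => ((i.val : ℕ) : FF F n)) j (psi σ Y f) = 0 := RingHom.mem_ker
  rw [h1, h2, ← omg_sb]
  exact (map_eq_zero_iff _ (omg_inj j)).symm

omit [CharZero F] in
/-- level zero of the injectivity -/
theorem psi_supported (σ : Fin n → F) {Y : Finset (Fin n)} {f : MvPolynomial (Fin n) F}
    (h : f ∈ supported F (Y : Set (Fin n))) :
    psi σ Y f = C (algebraMap (MvPolynomial (Fin n) F) (FF F n) f) := by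
  have h' : f ∈ Algebra.adjoin F (X '' (Y : Set (Fin n)) : Set (MvPolynomial (Fin n) F)) := h
  clear h
  induction h' using Algebra.adjoin_induction with
  | mem x hx =>
    obtain ⟨i, hi, rfl⟩ := hx
    exact psi_mem σ (Finset.mem_coe.1 hi)
  | algebraMap r =>
    rw [AlgHom.commutes]
    rfl
  | add x y _ _ hx hy => rw [map_add, hx, hy, map_add, map_add]
  | mul x y _ _ hx hy => rw [map_mul, hx, hy, map_mul, map_mul]

omit [CharZero F] in
theorem psi_vars (σ : Fin n → F) (Y : Finset (Fin n)) {f : MvPolynomial (Fin n) F}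
    {S : Set (Fin n)} (h : f ∈ supported F S) : psi σ Y f ∈ supported (FF F n) S := by
  have h' : f ∈ Algebra.adjoin F (X '' S : Set (MvPolynomial (Fin n) F)) := h
  clear h
  induction h' using Algebra.adjoin_induction with
  | mem x hx =>
    obtain ⟨i, hi, rfl⟩ := hx
    by_cases hiY : i ∈ Y
    · rw [psi_mem σ hiY]
      exact Subalgebra.algebraMap_mem _ _
    · rw [psi_not_mem σ hiY]
      exact Subalgebra.add_mem _ (X_mem_supported.2 hi) (Subalgebra.algebraMap_mem _ _)
  | algebraMap r =>
    rw [AlgHom.commutes, IsScalarTower.algebraMap_apply F (FF F n) (MvPolynomial (Fin n) (FF F n))]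
    exact Subalgebra.algebraMap_mem _ _
  | add x y _ _ hx hy => rw [map_add]; exact Subalgebra.add_mem _ hx hy
  | mul x y _ _ hx hy => rw [map_mul]; exact Subalgebra.mul_mem _ hx hy

/-- the values of the variables outside `Z` are those of `σ` -/
noncomputable def spe (σ : Fin n → F) (Z : Finset (Fin n)) :
    MvPolynomial (Fin n) F →ₐ[F] MvPolynomial (Fin n) F :=
  aeval (fun i => if i ∈ Z then X i else C (σ i))

omit [CharZero F] in
theorem spe_supported (σ : Fin n → F) (Z : Finset (Fin n)) (f : MvPolynomial (Fin n) F) :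
    spe σ Z f ∈ supported F (Z : Set (Fin n)) := by
  induction f using MvPolynomial.induction_on with
  | C r =>
    rw [spe, algHom_C]
    exact Subalgebra.algebraMap_mem _ r
  | add p q hp hq => rw [map_add]; exact Subalgebra.add_mem _ hp hq
  | mul_X p i hp =>
    rw [map_mul]
    refine Subalgebra.mul_mem _ hp ?_
    rw [spe, aeval_X]
    split_ifs with hi
    · exact X_mem_supported.2 (Finset.mem_coe.2 hi)
    · exact Subalgebra.algebraMap_mem _ _

omit [CharZero F] in
theorem cut_psi (σ : Fin n → F) (Y S : Finset (Fin n)) (f : MvPolynomial (Fin n) F) :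
    cut (FF F n) S (psi σ Y f) = psi σ Y (spe σ (Y ∪ S) f) := by
  classical
  have hC : ∀ c : FF F n, cut (FF F n) S (C c) = C c := fun c => (cut (FF F n) S).commutes c
  induction f using MvPolynomial.induction_on with
  | C r =>
    have h1 : spe σ (Y ∪ S) (C r) = C r := (spe σ (Y ∪ S)).commutes r
    rw [h1, psi_C, hC]
  | add p q hp hq => rw [map_add, map_add, hp, hq, map_add, map_add]
  | mul_X p i hp =>
    rw [map_mul, map_mul, hp, map_mul, map_mul]
    congr 1
    have hs : spe σ (Y ∪ S) (X i) = if i ∈ Y ∪ S then X i else C (σ i) := by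
      rw [spe, aeval_X]
    rw [hs]
    by_cases hY : i ∈ Y
    · rw [if_pos (Finset.mem_union_left _ hY), psi_mem σ hY, hC]
    · by_cases hS : i ∈ S
      · rw [if_pos (Finset.mem_union_right _ hS), psi_not_mem σ hY]
        exact cut_X_mem S hS _
      · have hn : i ∉ Y ∪ S := fun h => (Finset.mem_union.1 h).elim hY hS
        rw [if_neg hn]
        exact ((congrArg _ (psi_not_mem σ hY)).trans (cut_X_not S hS _)).trans
          (psi_C σ Y (σ i)).symm

omit [CharZero F] in
theorem eval_psi (σ : Fin n → F) (Y : Finset (Fin n)) (f : MvPolynomial (Fin n) F) :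
    eval (fun k => algebraMap (MvPolynomial (Fin n) F) (FF F n) (X k) -
      algebraMap F (FF F n) (σ k)) (psi σ Y f) =
      algebraMap (MvPolynomial (Fin n) F) (FF F n) f := by
  induction f using MvPolynomial.induction_on with
  | C r =>
    rw [psi_C, eval_C]
    rfl
  | add p q hp hq => rw [map_add, map_add, hp, hq, map_add]
  | mul_X p k hp =>
    rw [map_mul, map_mul, hp, map_mul]
    congr 1
    by_cases hk : k ∈ Y
    · rw [psi_mem σ hk, eval_C]
    · rw [psi_not_mem σ hk, map_add, eval_X, eval_C, sub_add_cancel]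

omit [CharZero F] in
theorem psi_inj (σ : Fin n → F) (Y : Finset (Fin n)) {f : MvPolynomial (Fin n) F}
    (h : psi σ Y f = 0) : f = 0 := by
  have h1 := eval_psi σ Y f
  rw [h, map_zero] at h1
  exact IsFractionRing.injective (MvPolynomial (Fin n) F) (FF F n) (by rw [← h1, map_zero])

end bc

end Pool.Agent.W936.RO
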