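import Mathlib
import Pool.Agent.H530R2.Rnk1

/-!
The rank of formulas, where gates whose arguments share few variables do not count.
-/

namespace Pool.Agent.W936.RO

open MvPolynomial Module Pool.Agent.H530R2

section pred

variable {F : Type} [Field F] {n : ℕ}

/-- `RP c b t S T`: the rank of the formula `T` is at most `t`. For `b = true` it is the number
which governs the descent along a path, for `b = false` gates whose arguments share at most `c`
variables (in a bag which contains the previous bag `S`) are free of charge. -/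
inductive RP (c : ℕ) : Bool → ℕ → Finset (Fin n) → Tr F n → Prop
  | leaf (t : ℕ) (g : MvPolynomial (Fin n) F) : RP c true t ∅ (.leaf g)
  | add {t : ℕ} {γ : MvPolynomial (Fin 2) F} {a b : Tr F n} : cpr γ = 0 →
      RP c true t ∅ a → RP c true t ∅ b → RP c true t ∅ (.gate γ a b)
  | left {t : ℕ} {γ : MvPolynomial (Fin 2) F} {a b : Tr F n} :
      RP c true (t + 1) ∅ a → RP c false t ∅ b → RP c true (t + 1) ∅ (.gate γ a b)
  | right {t : ℕ} {γ : MvPolynomial (Fin 2) F} {a b : Tr F n} :
      RP c false t ∅ a → RP c true (t + 1) ∅ b → RP c true (t + 1) ∅ (.gate γ a b)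
  | path {t : ℕ} {S : Finset (Fin n)} {T : Tr F n} : RP c true t ∅ T → RP c false t S T
  | share {t : ℕ} {S S' : Finset (Fin n)} {γ : MvPolynomial (Fin 2) F} {a b : Tr F n} :
      S'.card ≤ c → (∀ i, a.occ i ≠ 0 → b.occ i ≠ 0 → i ∈ S') →
      (∀ i ∈ S, a.occ i ≠ 0 ∨ b.occ i ≠ 0 → i ∈ S') →
      RP c false t S' a → RP c false t S' b → RP c false t S (.gate γ a b)
  | prod {t : ℕ} {S : Finset (Fin n)} {γ : MvPolynomial (Fin 2) F} {a b : Tr F n} :
      cpr γ ≠ 0 → RP c false t S a → RP c false t S b → RP c false t S (.gate γ a b)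

theorem RP.succ {c : ℕ} {f : Bool} {t : ℕ} {S : Finset (Fin n)} {T : Tr F n}
    (h : RP c f t S T) : RP c f (t + 1) S T := by
  induction h with
  | leaf t g => exact .leaf _ g
  | add h _ _ iha ihb => exact .add h iha ihb
  | left _ _ iha ihb => exact .left iha ihb
  | right _ _ iha ihb => exact .right iha ihb
  | path _ ih => exact .path ih
  | share h1 h2 h3 _ _ iha ihb => exact .share h1 h2 h3 iha ihb
  | prod h _ _ iha ihb => exact .prod h iha ihb

theorem RP.mono {c : ℕ} {f : Bool} {t t' : ℕ} (ht : t ≤ t') {S : Finset (Fin n)} {T : Tr F n}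
    (h : RP c f t S T) : RP c f t' S T := by
  induction t', ht using Nat.le_induction with
  | base => exact h
  | succ b _ ih => exact ih.succ

theorem occ_gate (γ : MvPolynomial (Fin 2) F) (a b : Tr F n) (i : Fin n) :
    (Tr.gate γ a b).occ i = a.occ i + b.occ i := rfl

/-- smaller bags -/
theorem RP.weaken {c : ℕ} {f : Bool} {t : ℕ} {S : Finset (Fin n)} {T : Tr F n}
    (h : RP c f t S T) : f = false → ∀ S₁ : Finset (Fin n), (∀ i ∈ S₁, T.occ i ≠ 0 → i ∈ S) →
      RP c false t S₁ T := by
  induction h with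
  | leaf t g => intro h; cases h
  | add h _ _ _ _ => intro h; cases h
  | left _ _ _ _ => intro h; cases h
  | right _ _ _ _ => intro h; cases h
  | path h _ => exact fun _ S₁ _ => .path h
  | share h1 h2 h3 ha hb _ _ =>
    intro _ S₁ hS
    refine .share h1 h2 (fun i hi hab => h3 i (hS i hi ?_) hab) ha hb
    rw [occ_gate]
    omega
  | prod h _ _ iha ihb =>
    intro _ S₁ hS
    refine .prod h (iha rfl S₁ fun i hi h0 => hS i hi ?_)
      (ihb rfl S₁ fun i hi h0 => hS i hi ?_)
    · rw [occ_gate]; omega
    · rw [occ_gate]; omega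

theorem RP.empty {c : ℕ} {t : ℕ} {S : Finset (Fin n)} {T : Tr F n}
    (h : RP c false t S T) : RP c false t ∅ T :=
  h.weaken rfl ∅ fun i hi => absurd hi (Finset.notMem_empty i)

theorem RP.toPath {c : ℕ} {f : Bool} {t : ℕ} {S : Finset (Fin n)} {T : Tr F n}
    (h : RP c f t S T) : RP c true (t + 1) ∅ T := by
  induction h with
  | leaf t g => exact .leaf _ g
  | add h _ _ iha ihb => exact .add h iha ihb
  | left h1 h2 iha ihb => exact .left iha h2.succ
  | right h1 h2 iha ihb => exact .right h1.succ ihb
  | path _ ih => exact ih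
  | share h1 h2 h3 ha hb iha ihb => exact .left iha hb.empty
  | prod h ha hb iha ihb => exact .left iha hb.empty

/-- the arguments of a gate -/
theorem RP.args {c t : ℕ} {S : Finset (Fin n)} {γ : MvPolynomial (Fin 2) F} {a b : Tr F n}
    (h : RP c false t S (.gate γ a b)) : RP c false t ∅ a ∧ RP c false t ∅ b := by
  cases h with
  | path h =>
    cases h with
    | add h ha hb => exact ⟨.path ha, .path hb⟩
    | left ha hb => exact ⟨.path ha, hb.succ⟩
    | right ha hb => exact ⟨ha.succ, .path hb⟩
  | share h1 h2 h3 ha hb => exact ⟨ha.empty, hb.empty⟩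
  | prod h ha hb => exact ⟨ha.empty, hb.empty⟩

/-- the arguments of a gate of a path -/
theorem RP.argsP {c t : ℕ} {γ : MvPolynomial (Fin 2) F} {a b : Tr F n}
    (h : RP c true t ∅ (.gate γ a b)) : RP c true t ∅ a ∧ RP c true t ∅ b := by
  cases h with
  | add h ha hb => exact ⟨ha, hb⟩
  | left ha hb => exact ⟨ha, hb.toPath⟩
  | right ha hb => exact ⟨ha.toPath, hb⟩

/-- reduced formulas -/
theorem RP.red {c : ℕ} {T' T : Tr F n} (h : Red T' T) :
    ∀ t, (RP c true t ∅ T → RP c true t ∅ T') ∧ ∀ S, RP c false t S T → RP c false t S T' := by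
  induction h with
  | refl T => exact fun t => ⟨id, fun S h => h⟩
  | const e T => exact fun t => ⟨fun _ => .leaf _ _, fun S _ => .path (.leaf _ _)⟩
  | @left T' a γ b hr ih =>
    intro t
    refine ⟨fun h => (ih t).1 h.argsP.1, fun S h => ?_⟩
    cases h with
    | path h => exact .path ((ih t).1 h.argsP.1)
    | share h1 h2 h3 ha hb =>
      refine ((ih t).2 _ ha).weaken rfl S fun i hi h0 => h3 i hi (Or.inl ?_)
      have := hr.occ i
      omega
    | prod h ha hb => exact (ih t).2 _ ha
  | @right T' b γ a hr ih =>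
    intro t
    refine ⟨fun h => (ih t).1 h.argsP.2, fun S h => ?_⟩
    cases h with
    | path h => exact .path ((ih t).1 h.argsP.2)
    | share h1 h2 h3 ha hb =>
      refine ((ih t).2 _ hb).weaken rfl S fun i hi h0 => h3 i hi (Or.inr ?_)
      have := hr.occ i
      omega
    | prod h ha hb => exact (ih t).2 _ hb
  | @gate a' a b' b γ hra hrb iha ihb =>
    have hP : ∀ t, RP c true t ∅ (.gate γ a b) → RP c true t ∅ (.gate γ a' b') := by
      intro t h
      cases h with
      | add h ha hb => exact .add h ((iha t).1 ha) ((ihb t).1 hb)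
      | left ha hb => exact .left ((iha _).1 ha) ((ihb _).2 _ hb)
      | right ha hb => exact .right ((iha _).2 _ ha) ((ihb _).1 hb)
    intro t
    refine ⟨hP t, fun S h => ?_⟩
    cases h with
    | path h => exact .path (hP t h)
    | share h1 h2 h3 ha hb =>
      refine .share h1 (fun i ha' hb' => h2 i ?_ ?_) (fun i hi hab => h3 i hi ?_)
        ((iha t).2 _ ha) ((ihb t).2 _ hb)
      · have := hra.occ i; omega
      · have := hrb.occ i; omega
      · have := hra.occ i
        have := hrb.occ i
        omega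
    | prod h ha hb => exact .prod h ((iha t).2 _ ha) ((ihb t).2 _ hb)

end pred

end Pool.Agent.W936.RO
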