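import Mathlib
import Pool.Agent.W936.RO.Base
import Pool.Agent.W936.RO.Pred

/-!
Gates whose arguments share few variables.
-/

namespace Pool.Agent.W936.RO

open MvPolynomial Module Pool.Agent.H530R2

section val

variable {F : Type} [Field F] {n : ℕ}

/-- nonvanishing of the values of formulas modulo the ideals -/
def Val (V : VanM F n) (L : Set (MvPolynomial (Fin n) F)) (c : ℕ) (f : Bool) (k t m : ℕ) :
    Prop :=
  ∀ (Y : Finset (Fin n)) (T : Tr F n), T.ML → T.Lv L → RP c f t ∅ T →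
    (∀ i, i ∉ Y → T.occ i ≤ k) → ∀ e ∈ supported F (Y : Set (Fin n)),
      T.val + e ∈ V.I m Y → T.val + e = 0

theorem Val.mono {V : VanM F n} {L : Set (MvPolynomial (Fin n) F)} {c : ℕ} {f : Bool}
    {k t m m' : ℕ} (h : Val V L c f k t m) (hm : m ≤ m') : Val V L c f k t m' :=
  fun Y T h1 h2 h3 h4 e h5 h6 => h Y T h1 h2 h3 h4 e h5 (V.mono hm _ h6)

theorem free_set (V : VanM F n) (S : Finset (Fin n)) {f : MvPolynomial (Fin n) F} :
    ∀ {m : ℕ} {Y : Finset (Fin n)}, f ∈ V.I (m + S.card) Y → f ∈ V.I m (Y ∪ S) := by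
  classical
  induction S using Finset.induction_on with
  | empty => intro m Y h; rwa [Finset.union_empty]
  | insert i S hi ih =>
    intro m Y h
    rw [Finset.card_insert_of_notMem hi] at h
    have h1 := V.free _ _ i _ (show f ∈ V.I (m + S.card + 1) Y from h)
    have h2 := ih h1
    have h3 : insert i Y ∪ S = Y ∪ insert i S := by
      ext j
      simp only [Finset.mem_union, Finset.mem_insert]
      tauto
    rwa [h3] at h2

/-- affine gate partials do not belong to the ideals -/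
theorem Val.aff {V : VanM F n} {L : Set (MvPolynomial (Fin n) F)} {c : ℕ} {f : Bool} {k t m : ℕ}
    (h : Val V L c f k t m) {Y : Finset (Fin n)} {T : Tr F n} (h1 : T.ML) (h2 : T.Lv L)
    (h3 : RP c f t ∅ T) (h4 : ∀ i, i ∉ Y → T.occ i ≤ k) {d c' : F}
    (h5 : C d + C c' * T.val ≠ 0) : C d + C c' * T.val ∉ V.I m Y := by
  by_cases hc' : c' = 0
  · subst hc'
    rw [C_0, zero_mul, add_zero] at h5 ⊢
    exact C_notMem V (fun hc => h5 (by rw [hc, C_0]))
  · intro hmem
    have h6 : C d + C c' * T.val = C c' * (T.val + C (d / c')) := by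
      rw [mul_add, ← C_mul, mul_div_cancel₀ _ hc']
      ring
    rw [h6] at hmem h5
    have h7 := (V.prime m Y).mem_or_mem hmem
    rcases h7 with h7 | h7
    · exact C_notMem V hc' h7
    · have h8 : (C (d / c') : MvPolynomial (Fin n) F) ∈ supported F (Y : Set (Fin n)) :=
        Subalgebra.algebraMap_mem _ (d / c')
      exact h5 (by rw [h Y T h1 h2 h3 h4 _ h8 h7, mul_zero])

/-- the arguments of a gate -/
theorem RP.args' {c t : ℕ} {f : Bool} {γ : MvPolynomial (Fin 2) F} {a b : Tr F n}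
    (h : RP c f t ∅ (.gate γ a b)) : RP c f t ∅ a ∧ RP c f t ∅ b := by
  cases f with
  | false => exact h.args
  | true => exact h.argsP

/-- regularity of the gates from the values -/
theorem Val.reg {V : VanM F n} {L : Set (MvPolynomial (Fin n) F)} {c : ℕ} {f : Bool} {k t m : ℕ}
    (h : Val V L c f k t m) {Y : Finset (Fin n)} {T : Tr F n} (h1 : T.ML) (h2 : T.Lv L)
    (h3 : RP c f t ∅ T) (h4 : ∀ i, i ∉ Y → T.occ i ≤ k) : Reg V m Y T := by
  induction T with
  | leaf g => trivial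
  | gate γ a b iha ihb =>
    obtain ⟨hma, hmb, c0, c1, c2, c3, rfl⟩ := h1
    obtain ⟨h3a, h3b⟩ := h3.args'
    have hoa : ∀ i, i ∉ Y → a.occ i ≤ k := fun i hi => (Nat.le_add_right _ _).trans (h4 i hi)
    have hob : ∀ i, i ∉ Y → b.occ i ≤ k := fun i hi => (Nat.le_add_left _ _).trans (h4 i hi)
    refine ⟨iha hma h2.1 h3a hoa, ihb hmb h2.2 h3b hob, ?_⟩
    intro i hi0 Y' hY'
    fin_cases i
    · simp only [Fin.zero_eta, Fin.isValue] at hi0 ⊢
      rw [ML_partial0] at hi0 ⊢
      exact h.aff hmb h2.2 h3b (fun i hi => hob i (fun hc => hi (hY' hc))) hi0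
    · simp only [Fin.mk_one, Fin.isValue] at hi0 ⊢
      rw [ML_partial1] at hi0 ⊢
      exact h.aff hma h2.1 h3a (fun i hi => hoa i (fun hc => hi (hY' hc))) hi0

theorem psi_gate (σ : Fin n → F) (Y S : Finset (Fin n)) (a b : MvPolynomial (Fin n) F)
    (γ : MvPolynomial (Fin 2) F) : psi σ Y (aeval ![a, b] γ) =
      aeval ![psi σ Y a, psi σ Y b] (MvPolynomial.map ((algebraMap (FF F n)
        (supported (FF F n) (S : Set (Fin n)))).comp (algebraMap F (FF F n))) γ) := by
  induction γ using MvPolynomial.induction_on with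
  | C r =>
    rw [algHom_C, map_C, algHom_C]
    exact psi_C σ Y r
  | add p q hp hq => rw [map_add, map_add, hp, hq, map_add, map_add]
  | mul_X p i hp =>
    rw [map_mul, map_mul, hp, map_mul, map_mul, map_X, aeval_X, aeval_X]
    congr 1
    fin_cases i <;> rfl

theorem psi_vars_sub (σ : Fin n → F) (Y : Finset (Fin n)) (T : Tr F n) {i : Fin n}
    (hi : i ∈ (psi σ Y T.val).vars) : T.occ i ≠ 0 := by
  have h1 := psi_vars σ Y T.val_supp
  exact (mem_supported.1 h1) (Finset.mem_coe.2 hi)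

variable [CharZero F]

theorem hit_add_const {K : Type*} [Field K] {a : Fin n → K} {m : ℕ} {S : Finset (Fin n)}
    {f : MvPolynomial (Fin n) K} (h : Hit a m S f) (x : K) : Hit a m S (f + C x) := by
  have h1 : cut K S (C x) = C x := (cut K S).commutes x
  intro hm
  rw [map_add, h1] at hm ⊢
  rw [add_sub_add_right_eq_sub] at hm
  rw [← h hm]

/-- The ideals of `V` are those of the generator with origin `σ`, at the multiples of `S₀`. -/
def Sh (V : VanM F n) (σ : Fin n → F) (S₀ : ℕ) : Prop :=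
  1 ≤ S₀ ∧ ∀ j Y, V.I j Y = (shVan (F := F) _ (natInj n) σ).I (j * S₀) Y

/-- formulas with free gates -/
theorem hit_share {V : VanM F n} {σ : Fin n → F} {S₀ : ℕ} (hV₀ : Sh V σ S₀)
    {L : Set (MvPolynomial (Fin n) F)} {c k m : ℕ} (hm : 1 ≤ m) {Y : Finset (Fin n)} {f : Bool}
    {t : ℕ} {S : Finset (Fin n)} {T : Tr F n} (hT : RP c f t S T) :
    Val V L c true k t m → f = false →
    T.ML → T.Lv L → (∀ i, i ∉ Y → T.occ i ≤ k) → S.card ≤ c →
      Hit (fun i : Fin n => ((i.val : ℕ) : FF F n)) ((m + c) * S₀) S (psi σ Y T.val) := by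
  classical
  have hS₀ := hV₀.1
  have hlt : ∀ j, j ≤ c → j < (m + c) * S₀ := fun j hj =>
    lt_of_lt_of_le (by omega : j < m + c) (Nat.le_mul_of_pos_right _ hS₀)
  obtain ⟨G⟩ := exists_genPt (fun i : Fin n => ((i.val : ℕ) : FF F n)) (ff_natInj n)
    ((m + c) * S₀) (by have := hlt 0 (Nat.zero_le _); omega)
    (FractionRing (MvPolynomial (Fin ((m + c) * S₀) ⊕ Fin ((m + c) * S₀)) (FF F n)))
  have hinf : Infinite (FF F n) := Infinite.of_injective _ (algebraMap F (FF F n)).injective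
  induction hT with
  | leaf t g => intro _ h; cases h
  | add h _ _ _ _ => intro _ h; cases h
  | left _ _ _ _ => intro _ h; cases h
  | right _ _ _ _ => intro _ h; cases h
  | @path t S T h _ =>
    intro hV _ h1 h2 h3 hS hmem
    rw [cut_psi] at hmem ⊢
    rw [← map_sub, ← mem_iff_psi] at hmem
    have h4 : T.val - spe σ (Y ∪ S) T.val ∈ V.I (m + S.card) Y := by
      refine V.mono (by omega : m + S.card ≤ m + c) _ ?_
      rw [hV₀.2]
      exact hmem
    have h5 := free_set _ S h4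
    rw [sub_eq_add_neg] at h5
    have h6 := hV (Y ∪ S) T h1 h2 h (fun i hi => h3 i fun hc => hi (Finset.mem_union_left _ hc))
      _ (Subalgebra.neg_mem _ (spe_supported σ (Y ∪ S) T.val)) h5
    rw [← sub_eq_add_neg, sub_eq_zero] at h6
    exact congrArg _ h6
  | @share t S S' γ a b hc h1 h2 ha hb iha ihb =>
    intro hV _ hML hLv hocc hS
    have hoa : ∀ i, i ∉ Y → a.occ i ≤ k := fun i hi => (Nat.le_add_right _ _).trans (hocc i hi)
    have hob : ∀ i, i ∉ Y → b.occ i ≤ k := fun i hi => (Nat.le_add_left _ _).trans (hocc i hi)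
    have e1 := iha hV rfl hML.1 hLv.1 hoa hc
    have e2 := ihb hV rfl hML.2.1 hLv.2 hob hc
    show Hit _ _ S (psi σ Y (aeval ![a.val, b.val] γ))
    rw [psi_gate σ Y S']
    refine Hit.gate G (ff_natInj n) (hlt _ hc) e1 e2 ?_ ?_ _
    · intro i hi
      rw [Finset.mem_inter] at hi
      exact h1 i (psi_vars_sub σ Y a hi.1) (psi_vars_sub σ Y b hi.2)
    · intro i hi
      rw [Finset.mem_inter, Finset.mem_union] at hi
      exact h2 i hi.1 (hi.2.imp (psi_vars_sub σ Y a) (psi_vars_sub σ Y b))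
  | @prod t S γ a b hγ ha hb iha ihb =>
    intro hV _ hML hLv hocc hS
    have hoa : ∀ i, i ∉ Y → a.occ i ≤ k := fun i hi => (Nat.le_add_right _ _).trans (hocc i hi)
    have hob : ∀ i, i ∉ Y → b.occ i ≤ k := fun i hi => (Nat.le_add_left _ _).trans (hocc i hi)
    have e1 := iha hV rfl hML.1 hLv.1 hoa hS
    have e2 := ihb hV rfl hML.2.1 hLv.2 hob hS
    obtain ⟨_, _, c0, c1, c2, c3, rfl⟩ := hML
    rw [cpr_affine] at hγ
    have e4 : (Tr.gate (C c0 + C c1 * X 0 + C c2 * X 1 + C c3 * (X 0 * X 1)) a b).val =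
        C c3 * ((a.val + C (c2 / c3)) * (b.val + C (c1 / c3))) + C (c0 - c1 * c2 / c3) := by
      have h1 : (Tr.gate (C c0 + C c1 * X 0 + C c2 * X 1 + C c3 * (X 0 * X 1)) a b).val =
          C c0 + C c1 * a.val + C c2 * b.val + C c3 * (a.val * b.val) := by
        show aeval ![a.val, b.val] (C c0 + C c1 * X 0 + C c2 * X 1 + C c3 * (X 0 * X 1)) = _
        simp only [map_add, map_mul, algHom_C, aeval_X]
        rfl
      have h2 : (C (c2 / c3) : MvPolynomial (Fin n) F) * C c3 = C c2 := by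
        rw [← C_mul, div_mul_cancel₀ _ hγ]
      have h3 : (C (c1 / c3) : MvPolynomial (Fin n) F) * C c3 = C c1 := by
        rw [← C_mul, div_mul_cancel₀ _ hγ]
      have h4 : (C (c0 - c1 * c2 / c3) : MvPolynomial (Fin n) F) =
          C c0 - C (c2 / c3) * C c1 := by
        rw [← C_mul, ← C_sub]
        congr 1
        field_simp
      rw [h1, h4, ← h2, ← h3]
      ring
    rw [e4, map_add, map_mul, map_mul, map_add, map_add, psi_C, psi_C, psi_C, psi_C]
    exact hit_add_const (Hit.mul G (ff_natInj n) (hlt _ hS) (Hit.const _ _)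
      (Hit.mul G (ff_natInj n) (hlt _ hS) (hit_add_const e1 _) (hit_add_const e2 _))) _

theorem Val.share {V : VanM F n} {σ : Fin n → F} {S₀ : ℕ} (hV₀ : Sh V σ S₀)
    {L : Set (MvPolynomial (Fin n) F)} {c k t m : ℕ} (hm : 1 ≤ m) (h : Val V L c true k t m) :
    Val V L c false k t (m + c) := by
  classical
  intro Y T h1 h2 h3 h4 e he hmem
  have hlt : 0 < (m + c) * S₀ := Nat.mul_pos (by omega) hV₀.1
  obtain ⟨G⟩ := exists_genPt (fun i : Fin n => ((i.val : ℕ) : FF F n)) (ff_natInj n)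
    ((m + c) * S₀) hlt
    (FractionRing (MvPolynomial (Fin ((m + c) * S₀) ⊕ Fin ((m + c) * S₀)) (FF F n)))
  have hinf : Infinite (FF F n) := Infinite.of_injective _ (algebraMap F (FF F n)).injective
  have h5 := hit_share hV₀ hm (Y := Y) h3 h rfl h1 h2 h4 (Nat.zero_le _)
  rw [hV₀.2] at hmem
  have h6 : psi σ Y T.val + C (algebraMap (MvPolynomial (Fin n) F) (FF F n) e) ∈
      genI (fun i : Fin n => ((i.val : ℕ) : FF F n)) ((m + c) * S₀) := by
    rw [← psi_supported σ he, ← map_add, ← mem_iff_psi]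
    exact hmem
  have h7 := Hit.eq_zero G (ff_natInj n) (T := ∅) (by rw [Finset.card_empty]; exact hlt)
    (hit_add_const h5 _) h6
  rw [← psi_supported σ he, ← map_add] at h7
  exact psi_inj σ Y h7

end val

end Pool.Agent.W936.RO
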