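import Mathlib
import Pool.Agent.W936.RO.Share

/-!
The descent along a path.
-/

namespace Pool.Agent.W936.RO

open MvPolynomial Module Pool.Agent.H530R2

section succ

variable {F : Type} [Field F]

/-- the derivative of a gate of formulas with at most `k` reads -/
theorem gate_pderiv_rk {n : ℕ} {V : VanM F n} {c : ℕ} {p : Cst} {Y₀ : Finset (Fin n)} (𝔏 : LFam V p Y₀)
    {k W0 s t : ℕ} (hs : 1 ≤ s) (hV : Val V (𝔏.K W0) c true k t s) {u v : Tr F n}
    {γ : MvPolynomial (Fin 2) F} (hu : u.ML) (hv : v.ML) (hLu : u.Lv (𝔏.K W0))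
    (hLv : v.Lv (𝔏.K W0)) (hsu : RP c true t ∅ u) (hsv : RP c true t ∅ v)
    {Y : Finset (Fin n)} (hY : Y₀ ⊆ Y) (hou : ∀ i, i ∉ Y → u.occ i ≤ k)
    (hov : ∀ i, i ∉ Y → v.occ i ≤ k) {x : Fin n}
    (hx : pderiv x (aeval ![u.val, v.val] γ) ≠ 0) :
    pderiv x (aeval ![u.val, v.val] γ) ∉ V.I (vC F k W0 p * s) Y := by
  set Vs := V.scale s hs with hVs
  have hreg : ∀ T : Tr F n, T.ML → T.Lv (𝔏.K W0) → RP c true t ∅ T →
      (∀ i, i ∉ Y → T.occ i ≤ k) → Reg Vs 1 Y T := by
    intro T h1 h2 h3 h4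
    have h5 := hV.reg h1 h2 h3 h4
    clear * - h5
    induction T with
    | leaf g => trivial
    | gate γ a b iha ihb =>
      refine ⟨iha h5.1, ihb h5.2.1, fun i h0 Y' hY' => ?_⟩
      have h6 := h5.2.2 i h0 Y' hY'
      show _ ∉ V.I (1 * s) Y'
      rwa [one_mul]
  obtain ⟨𝔏', h1, h2⟩ := ((𝔏.scale s hs).weaken hY).trees k 1 W0 2 ![u, v]
    (by intro q; fin_cases q; exacts [hou, hov])
    (by intro q; fin_cases q; exacts [hreg u hu hLu hsu hou, hreg v hv hLv hsv hov])
    (by intro q; fin_cases q; exacts [hLu, hLv])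
  intro hmem
  apply hx
  have h3 : aeval ![u.val, v.val] γ ∈ 𝔏'.K ((Cst.trees F k 1 W0 p 2).comb 2 2) := by
    refine 𝔏'.comb_mem (ι := Fin 2) (g := ![u.val, v.val]) (by rw [Fintype.card_fin]) ?_ ?_
    · intro i
      fin_cases i
      · exact h2 0 2 le_rfl
      · exact h2 1 2 le_rfl
    · rw [Algebra.adjoin_range_eq_range_aeval]
      exact ⟨γ, rfl⟩
  refine 𝔏'.seeds _ _ (𝔏'.der_mem x h3) Y le_rfl ?_
  show _ ∈ V.I (_ * s) Y
  refine V.mono (Nat.mul_le_mul_right _ ?_) _ hmem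
  unfold vC
  omega

/-- a derivative which does not belong to the ideals -/
theorem descend_rk {n : ℕ} {V : VanM F n} {c : ℕ} {p : Cst} (𝔏 : LFam V p ∅)
    {k W0 s t m' M : ℕ} (hs : 1 ≤ s) (hM : m' ≤ M) (hM' : vC F k W0 p * s ≤ M)
    (hV : Val V (𝔏.K W0) c true k t s)
    (hV' : t ≠ 0 → Val V (𝔏.K W0) c false (k + 1) (t - 1) m') {Y : Finset (Fin n)} (T : Tr F n) :
    T.ML → T.Lv (𝔏.K W0) → RP c true t ∅ T → (∀ i, i ∉ Y → T.occ i ≤ k + 1) →
    (∃ x ∈ ZT T Y k, pderiv x T.val ≠ 0) →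
    ∃ x ∈ ZT T Y k, pderiv x T.val ≠ 0 ∧ ∃ S ⊆ ZT T Y k, (∀ y ∈ S, pderiv y T.val = 0) ∧
      ∀ Y', Y ∪ S ⊆ Y' → pderiv x T.val ∉ V.I M Y' := by
  classical
  induction T with
  | leaf g =>
    intro _ hL _ _ ⟨x, hx, hx0⟩
    refine ⟨x, hx, hx0, ∅, Finset.empty_subset _, by simp, ?_⟩
    intro Y' _ hmem
    apply hx0
    refine 𝔏.seeds _ _ (𝔏.der_mem x hL) Y' (Finset.empty_subset _) (V.mono ?_ _ hmem)
    have h1 : p.sd (p.der W0) ≤ vC F k W0 p := by unfold vC; omega
    exact h1.trans ((Nat.le_mul_of_pos_right _ hs).trans hM')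
  | gate γ u v ihu ihv =>
    intro hML hL hsz hocc hex
    obtain ⟨hmu, hmv, c0, c1, c2, c3, hγ⟩ := hML
    obtain ⟨hLu, hLv⟩ := hL
    have hcpr : cpr γ = c3 := by rw [hγ, cpr_affine]
    obtain ⟨hru, hrv⟩ := hsz.argsP
    set T : Tr F n := .gate γ u v with hT
    have hoccT : ∀ i, T.occ i = u.occ i + v.occ i := fun i => rfl
    have hval : T.val = aeval ![u.val, v.val] γ := rfl
    have hou : ∀ i, i ∉ Y → u.occ i ≤ k + 1 := fun i hi => by
      have := hocc i hi; have := hoccT i; omega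
    have hov : ∀ i, i ∉ Y → v.occ i ≤ k + 1 := fun i hi => by
      have := hocc i hi; have := hoccT i; omega
    have hZu : ZT u Y k ⊆ ZT T Y k := by
      intro i hi
      rw [mem_ZT] at hi ⊢
      have := hoccT i
      exact ⟨hi.1, by omega⟩
    have hZv : ZT v Y k ⊆ ZT T Y k := by
      intro i hi
      rw [mem_ZT] at hi ⊢
      have := hoccT i
      exact ⟨hi.1, by omega⟩
    have hdu : ∀ i ∈ ZT u Y k, pderiv i T.val = (C c1 + C c3 * v.val) * pderiv i u.val := by
      intro i hi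
      rw [mem_ZT] at hi
      have h1 := hocc i hi.1
      have h2 := hoccT i
      rw [hval, pderiv_gate, Tr.pderiv_val (T := v) (k := i) (by omega), mul_zero, add_zero,
        hγ, ML_partial0]
    have hdv : ∀ i ∈ ZT v Y k, pderiv i T.val = (C c2 + C c3 * u.val) * pderiv i v.val := by
      intro i hi
      rw [mem_ZT] at hi
      have h1 := hocc i hi.1
      have h2 := hoccT i
      rw [hval, pderiv_gate, Tr.pderiv_val (T := u) (k := i) (by omega), mul_zero, zero_add,
        hγ, ML_partial1]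
    -- passing to a child
    have step : ∀ (w w' : Tr F n) (e : F), ZT w Y k ⊆ ZT T Y k →
        (∀ i ∈ ZT w Y k, pderiv i T.val = (C e + C c3 * w'.val) * pderiv i w.val) →
        (∃ x ∈ ZT w Y k, pderiv x w.val ≠ 0 ∧ ∃ S ⊆ ZT w Y k, (∀ y ∈ S, pderiv y w.val = 0) ∧
          ∀ Y', Y ∪ S ⊆ Y' → pderiv x w.val ∉ V.I M Y') →
        (C e + C c3 * w'.val ≠ 0) →
        (∀ Y', Y ⊆ Y' → C e + C c3 * w'.val ∉ V.I M Y') →
        ∃ x ∈ ZT T Y k, pderiv x T.val ≠ 0 ∧ ∃ S ⊆ ZT T Y k, (∀ y ∈ S, pderiv y T.val = 0) ∧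
          ∀ Y', Y ∪ S ⊆ Y' → pderiv x T.val ∉ V.I M Y' := by
      rintro w w' e hZw hdw ⟨x, hx, hx0, S, hS, hS0, hxS⟩ hne hno
      refine ⟨x, hZw hx, ?_, S, hS.trans hZw, ?_, ?_⟩
      · rw [hdw x hx]
        exact mul_ne_zero hne hx0
      · intro y hy
        rw [hdw y (hS hy), hS0 y hy, mul_zero]
      · intro Y' hY' hmem
        rw [hdw x hx] at hmem
        rcases (V.prime _ _).mem_or_mem hmem with h | h
        · exact hno Y' (Finset.subset_union_left.trans hY') h
        · exact hxS Y' hY' h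
    -- the main case distinction, for `w` heavy and `w'` light
    have main : ∀ (w w' : Tr F n) (e e' : F), ZT w Y k ⊆ ZT T Y k → ZT w' Y k ⊆ ZT T Y k →
        w.ML → w'.ML → w.Lv (𝔏.K W0) → w'.Lv (𝔏.K W0) → RP c true t ∅ w →
        (c3 ≠ 0 → t ≠ 0 ∧ RP c false (t - 1) ∅ w') → (∀ i, i ∉ Y → w.occ i ≤ k + 1) →
        (∀ i, i ∉ Y → w'.occ i ≤ k + 1) →
        (∀ i ∈ ZT w Y k, pderiv i T.val = (C e + C c3 * w'.val) * pderiv i w.val) →
        (∀ i ∈ ZT w' Y k, pderiv i T.val = (C e' + C c3 * w.val) * pderiv i w'.val) →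
        ((∃ x ∈ ZT w Y k, pderiv x w.val ≠ 0) →
          ∃ x ∈ ZT w Y k, pderiv x w.val ≠ 0 ∧ ∃ S ⊆ ZT w Y k, (∀ y ∈ S, pderiv y w.val = 0) ∧
            ∀ Y', Y ∪ S ⊆ Y' → pderiv x w.val ∉ V.I M Y') →
        ((∃ x ∈ ZT w' Y k, pderiv x w'.val ≠ 0) →
          ∃ x ∈ ZT w' Y k, pderiv x w'.val ≠ 0 ∧ ∃ S ⊆ ZT w' Y k,
            (∀ y ∈ S, pderiv y w'.val = 0) ∧
            ∀ Y', Y ∪ S ⊆ Y' → pderiv x w'.val ∉ V.I M Y') →
        (∃ x ∈ ZT T Y k, pderiv x T.val ≠ 0 ∧ ∃ S ⊆ ZT T Y k, (∀ y ∈ S, pderiv y T.val = 0) ∧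
          ∀ Y', Y ∪ S ⊆ Y' → pderiv x T.val ∉ V.I M Y') ∨
          ((∀ x ∈ ZT w Y k, pderiv x T.val = 0) ∧ (∀ x ∈ ZT w' Y k, pderiv x T.val = 0)) := by
      intro w w' e e' hZw hZw' hmw hmw' hLw hLw' hsw hsw' how how' hdw hdw' ihw ihw'
      by_cases h1 : ∃ x ∈ ZT w Y k, pderiv x T.val ≠ 0
      · left
        obtain ⟨x, hx, hx0⟩ := h1
        rw [hdw x hx] at hx0
        refine step w w' e hZw hdw (ihw ⟨x, hx, right_ne_zero_of_mul hx0⟩)
          (left_ne_zero_of_mul hx0) ?_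
        intro Y' hY' hmem
        by_cases hc3 : c3 = 0
        · subst hc3
          rw [C_0, zero_mul, add_zero] at hmem hx0
          exact C_notMem V (fun hc => left_ne_zero_of_mul hx0 (by rw [hc, C_0])) hmem
        · obtain ⟨ht, hsw''⟩ := hsw' hc3
          exact (hV' ht).aff hmw' hLw' hsw'' (fun i hi => how' i (fun hc => hi (hY' hc)))
            (left_ne_zero_of_mul hx0) (V.mono hM _ hmem)
      · push Not at h1
        by_cases h2 : ∃ x ∈ ZT w' Y k, pderiv x T.val ≠ 0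
        · left
          obtain ⟨x, hx, hx0⟩ := h2
          rw [hdw' x hx] at hx0
          refine step w' w e' hZw' hdw' (ihw' ⟨x, hx, right_ne_zero_of_mul hx0⟩)
            (left_ne_zero_of_mul hx0) ?_
          intro Y' hY' hmem
          by_cases hc3 : c3 = 0
          · subst hc3
            rw [C_0, zero_mul, add_zero] at hmem hx0
            exact C_notMem V (fun hc => left_ne_zero_of_mul hx0 (by rw [hc, C_0])) hmem
          · have h3 : C e + C c3 * w'.val ≠ 0 := by
              intro h4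
              apply right_ne_zero_of_mul hx0
              have h5 := congrArg (pderiv x) h4
              rw [map_add, pderiv_C, zero_add, pderiv_mul, pderiv_C, zero_mul, zero_add,
                map_zero, mul_eq_zero] at h5
              exact h5.resolve_left (fun h6 => hc3 (C_injective _ _ (by rw [h6, C_0])))
            have h4 : ∀ y ∈ ZT w Y k, pderiv y w.val = 0 := by
              intro y hy
              have h5 := h1 y hy
              rw [hdw y hy] at h5
              exact (mul_eq_zero.1 h5).resolve_left h3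
            have h6 : C e' + C c3 * w.val ∈ V.I M (Y' ∪ ZT w Y k) := by
              refine V.free_indep _ ?_ hmem
              intro y hy
              rw [map_add, pderiv_C, zero_add, pderiv_mul, pderiv_C, zero_mul, zero_add,
                h4 y hy, mul_zero]
            refine hV.aff hmw hLw hsw ?_ (left_ne_zero_of_mul hx0) (V.mono ?_ _ h6)
            · intro i hi
              by_contra hc
              apply hi
              apply Finset.mem_union_right
              rw [mem_ZT]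
              exact ⟨fun hc' => hi (Finset.mem_union_left _ (hY' hc')), by omega⟩
            · have h7 : 1 ≤ vC F k W0 p := Nat.succ_pos _
              exact (Nat.le_mul_of_pos_left _ h7).trans hM'
        · push Not at h2
          exact Or.inr ⟨h1, h2⟩
    have stop : (∀ x ∈ ZT u Y k, pderiv x T.val = 0) → (∀ x ∈ ZT v Y k, pderiv x T.val = 0) →
        ∃ x ∈ ZT T Y k, pderiv x T.val ≠ 0 ∧ ∃ S ⊆ ZT T Y k, (∀ y ∈ S, pderiv y T.val = 0) ∧
          ∀ Y', Y ∪ S ⊆ Y' → pderiv x T.val ∉ V.I M Y' := by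
      intro h1 h2
      obtain ⟨x, hx, hx0⟩ := hex
      refine ⟨x, hx, hx0, ZT u Y k ∪ ZT v Y k, Finset.union_subset hZu hZv, ?_, ?_⟩
      · intro y hy
        rcases Finset.mem_union.1 hy with h | h
        · exact h1 y h
        · exact h2 y h
      · intro Y' hY' hmem
        refine gate_pderiv_rk 𝔏 hs hV hmu hmv hLu hLv hru hrv (Y := Y')
          (Finset.empty_subset _) ?_ ?_ (γ := γ) hx0
          (V.mono hM' _ hmem)
        · intro i hi
          by_contra hc
          apply hi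
          apply hY'
          apply Finset.mem_union_right
          apply Finset.mem_union_left
          rw [mem_ZT]
          exact ⟨fun hc' => hi (hY' (Finset.mem_union_left _ hc')), by omega⟩
        · intro i hi
          by_contra hc
          apply hi
          apply hY'
          apply Finset.mem_union_right
          apply Finset.mem_union_right
          rw [mem_ZT]
          exact ⟨fun hc' => hi (hY' (Finset.mem_union_left _ hc')), by omega⟩
    have hfin : (c3 ≠ 0 → t ≠ 0 ∧ RP c false (t - 1) ∅ v) ∨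
        (c3 ≠ 0 → t ≠ 0 ∧ RP c false (t - 1) ∅ u) := by
      have hsz' : RP c true t ∅ (.gate γ u v) := hsz
      clear * - hsz' hcpr
      cases hsz' with
      | add h ha hb => exact Or.inl fun h' => absurd (hcpr.symm.trans h) h'
      | left ha hb => exact Or.inl fun _ => ⟨Nat.succ_ne_zero _, hb⟩
      | right ha hb => exact Or.inr fun _ => ⟨Nat.succ_ne_zero _, ha⟩
    rcases hfin with hlight | hlight
    · rcases main u v c1 c2 hZu hZv hmu hmv hLu hLv hru hlight hou hov hdu hdv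
        (ihu hmu hLu hru hou) (ihv hmv hLv hrv hov) with h | ⟨h1, h2⟩
      · exact h
      · exact stop h1 h2
    · rcases main v u c2 c1 hZv hZu hmv hmu hLv hLu hrv hlight hov hou hdv hdu
        (ihv hmv hLv hrv hov) (ihu hmu hLu hru hou) with h | ⟨h1, h2⟩
      · exact h
      · exact stop h2 h1

theorem Val.succ {n : ℕ} {V : VanM F n} {c : ℕ} {p : Cst} (𝔏 : LFam V p ∅)
    {k W0 s t m' M : ℕ} (hs : 1 ≤ s) (hM : m' ≤ M) (hM' : vC F k W0 p * s ≤ M)
    (hV : Val V (𝔏.K W0) c true k t s)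
    (hV' : t ≠ 0 → Val V (𝔏.K W0) c false (k + 1) (t - 1) m') :
    Val V (𝔏.K W0) c true (k + 1) t (M + 1) := by
  classical
  intro Y T hML hL hsz hocc e he hmem
  have hC : 1 ≤ vC F k W0 p := Nat.succ_pos _
  have hle : s ≤ M := (Nat.le_mul_of_pos_left _ hC).trans hM'
  have hd : ∀ x ∈ ZT T Y k, pderiv x (T.val + e) = pderiv x T.val := by
    intro x hx
    rw [mem_ZT] at hx
    rw [map_add, pderiv_eq_zero_of_notMem_vars (f := e) (i := x) ?_, add_zero]
    intro hc
    exact hx.1 (Finset.mem_coe.1 ((mem_supported.1 he) (Finset.mem_coe.2 hc)))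
  have hfin : ∀ {j : ℕ} {Y' : Finset (Fin n)}, s ≤ j → ZT T Y k ⊆ Y' → Y ⊆ Y' →
      T.val + e ∈ V.I j Y' → T.val + e = 0 := by
    intro j Y' hj hZ hYY' h
    refine hV Y' T hML hL hsz ?_ e (supported_mono (by exact_mod_cast hYY') he) (V.mono hj _ h)
    intro i hi
    by_contra hc
    apply hi
    apply hZ
    rw [mem_ZT]
    exact ⟨fun hc' => hi (hYY' hc'), by omega⟩
  by_cases hex : ∃ x ∈ ZT T Y k, pderiv x T.val ≠ 0
  · obtain ⟨x, hx, hx0, S, hS, hS0, hxS⟩ := descend_rk 𝔏 hs hM hM' hV hV' T hML hL hsz hocc hex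
    have h1 : T.val + e ∈ V.I (M + 1) (Y ∪ S) :=
      V.free_indep S (fun y hy => by rw [hd y (hS hy), hS0 y hy]) hmem
    have h2 := V.free _ _ x _ h1
    have h3 : T.val + e ∈ V.I M (insert x (Y ∪ S) ∪ ZT T Y k) := by
      refine V.free_rank1 _ (Finset.mem_insert_self _ _) ?_ h2
      intro Y' hY'
      rw [hd x hx]
      exact hxS Y' ((Finset.subset_insert _ _).trans hY')
    exact hfin hle Finset.subset_union_right
      (Finset.subset_union_left.trans ((Finset.subset_insert _ _).trans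
        Finset.subset_union_left)) h3
  · push Not at hex
    have h1 : T.val + e ∈ V.I (M + 1) (Y ∪ ZT T Y k) :=
      V.free_indep _ (fun y hy => by rw [hd y hy, hex y hy]) hmem
    exact hfin (hle.trans (Nat.le_succ _)) Finset.subset_union_right Finset.subset_union_left h1


/-- values of formulas of rank at most `t` reading every variable at most `k` times -/
theorem Val.all [CharZero F] (p : Cst) (W0 c k : ℕ) : ∃ m : ℕ, 1 ≤ m ∧
    ∀ (n : ℕ) (V : VanM F n) (σ : Fin n → F) (S₀ : ℕ), Sh V σ S₀ → ∀ (𝔏 : LFam V p ∅) (t : ℕ),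
      Val V (𝔏.K W0) c true k t (m * (t + 1)) := by
  induction k with
  | zero =>
    refine ⟨1, le_rfl, ?_⟩
    intro n V σ S₀ _ 𝔏 t Y T _ _ _ hocc e he hmem
    refine V.supp _ _ _ ?_ hmem
    refine Subalgebra.add_mem _ ?_ he
    refine supported_mono ?_ T.val_supp
    intro i hi
    by_contra hc
    have := hocc i (fun hc' => hc (Finset.mem_coe.2 hc'))
    exact hi (by omega)
  | succ k ih =>
    obtain ⟨m, hm, hV⟩ := ih
    refine ⟨vC F k W0 p * m + (c + 1), by omega, ?_⟩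
    intro n V σ S₀ hS 𝔏 t
    have hs : ∀ t, 1 ≤ m * (t + 1) := fun t => Nat.mul_pos hm (Nat.succ_pos t)
    induction t with
    | zero =>
      have h1 := Val.succ 𝔏 (hs 0) (m' := 0) (M := vC F k W0 p * (m * (0 + 1))) (Nat.zero_le _)
        le_rfl (hV n V σ S₀ hS 𝔏 0) (fun h => absurd rfl h)
      refine h1.mono ?_
      have h2 : (vC F k W0 p * m + (c + 1)) * (0 + 1) = vC F k W0 p * (m * (0 + 1)) + 1 + c := by
        ring
      rw [h2]
      exact Nat.le_add_right _ _
    | succ t iht =>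
      have hsh := iht.share hS (by
        refine Nat.mul_pos ?_ (Nat.succ_pos t)
        omega)
      have h1 := Val.succ 𝔏 (hs (t + 1))
        (m' := (vC F k W0 p * m + (c + 1)) * (t + 1) + c)
        (M := vC F k W0 p * (m * (t + 1 + 1)) + ((c + 1) * (t + 1) + c)) ?_
        (Nat.le_add_right _ _) (hV n V σ S₀ hS 𝔏 (t + 1)) (fun _ => hsh)
      · refine h1.mono (le_of_eq ?_)
        ring
      · have h2 : vC F k W0 p * (m * (t + 1 + 1)) + ((c + 1) * (t + 1) + c) =
            (vC F k W0 p * m + (c + 1)) * (t + 1) + c + vC F k W0 p * m := by ring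
        rw [h2]
        exact Nat.le_add_right _ _

/-- values of formulas of rank at most `t` with free gates -/
theorem Val.allS [CharZero F] (p : Cst) (W0 c k : ℕ) : ∃ m : ℕ, 1 ≤ m ∧
    ∀ (n : ℕ) (V : VanM F n) (σ : Fin n → F) (S₀ : ℕ), Sh V σ S₀ → ∀ (𝔏 : LFam V p ∅) (t : ℕ),
      Val V (𝔏.K W0) c false k t (m * (t + 1)) := by
  obtain ⟨m, hm, h⟩ := Val.all (F := F) p W0 c k
  refine ⟨m + c, by omega, fun n V σ S₀ hS 𝔏 t => ?_⟩
  refine ((h n V σ S₀ hS 𝔏 t).share hS (Nat.mul_pos hm (Nat.succ_pos t))).mono ?_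
  rw [add_mul]
  exact Nat.add_le_add_left (Nat.le_mul_of_pos_right _ (Nat.succ_pos t)) _

end succ

end Pool.Agent.W936.RO
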