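import Mathlib
import Pool.Agent.H530R2.Gen2
import Pool.Agent.W936.RO.Path

/-!
The hitting theorems for a generator with a shifted origin.
-/

namespace Pool.Agent.W936.RO

open MvPolynomial Module Pool.Agent.H530R2

section hit

variable {F : Type} [Field F] [CharZero F]

/-- The hitting theorem for polynomials in products of polynomials in `w` formulas. -/
theorem tree_hit3 (p : Cst) (κ k w c W0 eR : ℕ) (hk : 1 ≤ k) : ∃ m : ℕ,
    ∀ (n S : ℕ), 1 ≤ S → ∀ (σ : Fin n → F) (V : VanM F n),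
      (∀ j f, tsl σ f ∈ genI (fun i : Fin n => ((i.val : ℕ) : F)) (j * S) → f ∈ V.I j ∅) →
      ∀ (𝔏 : LFam V p ∅) (L : Set (MvPolynomial (Fin n) F)) (Q : Tr F n → Prop), L ⊆ 𝔏.K W0 →
      (∀ y, C y ∈ L) → (∀ A : Finset (Fin n), A.card ≤ κ → ∀ g ∈ L, Gn (𝔏.K W0) A c g) →
      (∀ T : Tr F n, Q T → T.ML ∧ T.Lv L ∧ (∀ i, T.occ i ≤ k) ∧
        ∀ T' : Tr F n, Red T' T → Reg V eR ∅ T') →
      ∀ f : MvPolynomial (Fin n) F, Pool.Agent.H626R2.Loc.BddTrG (PolyIn Q w) κ f → f ≠ 0 →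
        tsl σ f ∉ genI (fun i : Fin n => ((i.val : ℕ) : F)) (m * S) := by
  classical
  set C₁ := w * (κ * k * (c + 4) + 1) with hC₁
  set q₀ := (κ + 1) * C₁ with hq₀
  refine ⟨(Cst.trees F k eR W0 p q₀).em q₀ q₀ + (κ + (κ + 1) * C₁), ?_⟩
  intro n S hS σ V hV 𝔏 L Q hL h0 hgn hreg f hf hf0
  set T' : Set (MvPolynomial (Fin n) F) := {x | ∃ T : Tr F n, (∀ i, T.occ i ≤ k) ∧
    Reg V eR ∅ T ∧ T.Lv (𝔏.K W0) ∧ x = T.val} with hT'
  have hleafT' : ∀ g ∈ 𝔏.K W0, g ∈ T' := by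
    intro g hg
    refine ⟨.leaf g, fun i => ?_, trivial, hg, rfl⟩
    rw [Tr.occ]
    split_ifs
    · exact hk
    · exact Nat.zero_le _
  have hsub : ∀ T : Tr F n, Q T → Dn (𝔏.K W0) T ⊆ T' := by
    rintro T hQT x (hx | ⟨T₀, a1, rfl⟩)
    · exact hleafT' x hx
    · obtain ⟨_, e2, e4, e5⟩ := hreg T hQT
      exact ⟨T₀, fun i => (a1.occ i).trans (e4 i), e5 T₀ a1, (a1.lv h0 e2).mono hL, rfl⟩
  have h0T : (0 : MvPolynomial (Fin n) F) ∈ tsl σ '' T' :=
    ⟨0, hleafT' 0 (hL (by simpa using h0 0)), map_zero _⟩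
  have hfc : ∀ g, PolyIn Q w g →
      Pool.Agent.H626R2.Loc.FinCoef κ C₁ (tsl σ '' T') (tsl σ g) := by
    rintro g ⟨T, P, hT, rfl⟩
    rw [← AlgHom.comp_apply, comp_aeval]
    refine Pool.Agent.H626R2.Loc.FinCoef.comp _ (fun i => ?_) P
    refine Gn.finCoef h0T fun A hA => ?_
    obtain ⟨e1, e2, e3, _⟩ := hreg _ (hT i)
    exact ((Tr.gn2 hA (fun g hg => hgn A hA g hg) e1 e2 e3).mono (hsub _ (hT i)) le_rfl).tsl σ
  have htf : tsl σ f ≠ 0 := fun h => hf0 (tsl_inj σ (by rw [h, map_zero]))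
  have hhit := Pool.Agent.H626R2.Loc.fin_hit (K := F) (n := n) (k := κ) (C := C₁)
    (m := (Cst.trees F k eR W0 p q₀).em q₀ q₀ * S) (tsl σ '' T') h0T ?_
    (f := tsl σ f) ?_ htf
  · rw [evT_ne_iff] at hhit
    intro hc
    apply hhit
    refine genI_le _ ?_ hc
    have h2 : ∀ x y : ℕ, x * S + y ≤ (x + y) * S := by
      intro x y
      rw [add_mul x]
      exact Nat.add_le_add_left (Nat.le_mul_of_pos_right _ hS) _
    exact h2 _ _
  · intro q hq t _ G hG hdet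
    rw [evT_ne_iff]
    choose G₀ hG₀ hG₀' using hG
    choose T hT using hG₀
    intro hc
    have hG' : G = fun a => tsl σ (T a).val := funext fun a => by
      rw [← (hT a).2.2.2]
      exact (hG₀' a).symm
    rw [hG'] at hc hdet
    have hc' : tsl σ (Matrix.of fun a b => pderiv (t b) (T a).val).det ∈
        genI (fun i : Fin n => ((i.val : ℕ) : F))
          ((Cst.trees F k eR W0 p q₀).em q₀ q₀ * S) := by
      rw [← tsl_det σ t fun a => (T a).val]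
      exact hc
    have hdet' : (Matrix.of fun a b => pderiv (t b) (T a).val).det ≠ 0 := by
      intro h
      apply hdet
      rw [tsl_det σ t fun a => (T a).val, h, map_zero]
    exact trees_det 𝔏 hq T
      (fun a => ⟨(hT a).1, (hT a).2.1, (hT a).2.2.1⟩) (hL (h0 0)) t hdet'
      (hV _ _ hc')
  · obtain ⟨N', Sm, hSm, hdep, hmem⟩ := hf
    refine ⟨N', fun i => (Sm i).map (tsl σ), ?_, ?_, ?_⟩
    · intro i g hg
      obtain ⟨g', hg', rfl⟩ := Multiset.mem_map.1 hg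
      exact hfc g' (hSm i g' hg')
    · intro u hu
      apply hdep u
      refine AlgebraicIndependent.of_comp (tsl σ) ?_
      have he : (⇑(tsl σ) ∘ fun a => (Sm (u a)).prod) =
          fun a => ((Sm (u a)).map (tsl σ)).prod := by
        funext a
        exact map_multiset_prod (tsl σ) _
      rw [he]
      exact hu
    · have h3 : tsl σ f ∈ (Algebra.adjoin F (Set.range fun i => (Sm i).prod)).map (tsl σ) :=
        ⟨f, hmem, rfl⟩
      rw [AlgHom.map_adjoin] at h3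
      refine Algebra.adjoin_mono ?_ h3
      rintro _ ⟨_, ⟨i, rfl⟩, rfl⟩
      exact ⟨i, (map_multiset_prod (tsl σ) _).symm⟩

/-- The hitting theorem for polynomials in products of polynomials in `w` formulas of rank
at most `t` which read every variable at most `k` times. -/
theorem rank_hit3 (𝔎 : Fam F) (κ k w c b W0 : ℕ) (hk : 1 ≤ k) : ∃ m : ℕ,
    ∀ (n s : ℕ) (V₀ : VanM F n), V₀ ∈ 𝔎.Ok s n → ∀ (σ : Fin n → F) (S₀ : ℕ), Sh V₀ σ S₀ →
    ∀ (t : ℕ) (L : Set (MvPolynomial (Fin n) F)), L ⊆ 𝔎.K s n W0 → (∀ y, C y ∈ L) →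
    (∀ A : Finset (Fin n), A.card ≤ κ → ∀ g ∈ L, Gn (𝔎.K s n W0) A c g) →
    ∀ f : MvPolynomial (Fin n) F,
    Pool.Agent.H626R2.Loc.BddTrG (PolyIn (fun T : Tr F n => T.ML ∧ T.Lv L ∧
      (∀ i, T.occ i ≤ k) ∧ RP b false t ∅ T) w) κ f → f ≠ 0 →
    f ∉ V₀.I (m * (t + 1)) ∅ := by
  classical
  obtain ⟨M, hM, hVal⟩ := Val.allS (F := F) 𝔎.cst W0 b k
  obtain ⟨m, hm⟩ := tree_hit3 (F := F) 𝔎.cst κ k w c W0 1 hk
  refine ⟨m * M, ?_⟩
  intro n s V₀ hok σ S₀ hSh t L hL hC hgn f hf hf0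
  have hs : 1 ≤ M * (t + 1) := Nat.mul_pos hM (Nat.succ_pos t)
  set V := V₀.scale (M * (t + 1)) hs with hV
  have hge : ∀ j f, tsl σ f ∈ genI (fun i : Fin n => ((i.val : ℕ) : F))
      (j * (M * (t + 1) * S₀)) → f ∈ V.I j ∅ := by
    intro j f h
    show f ∈ V₀.I (j * (M * (t + 1))) ∅
    rw [hSh.2, mul_assoc j, mem_shVan]
    exact h
  have hval := hVal n V₀ σ S₀ hSh (𝔎.toL hok) t
  have h := hm n (M * (t + 1) * S₀) (Nat.mul_pos hs hSh.1) σ V hge
    ((𝔎.toL hok).scale _ hs) L _ hL hC hgn ?_ f hf hf0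
  · intro hc
    apply h
    rw [hSh.2, mem_shVan] at hc
    have he : m * (M * (t + 1) * S₀) = m * M * (t + 1) * S₀ := by ring
    rw [he]
    exact hc
  · rintro T ⟨h1, h2, h3, h4⟩
    refine ⟨h1, h2, h3, fun T' hT' => ?_⟩
    have h5 := hval.reg (Y := ∅) (hT'.ml h1) ((hT'.lv hC h2).mono hL)
      ((RP.red hT' t).2 ∅ h4) (fun i _ => (hT'.occ i).trans (h3 i))
    clear * - h5
    induction T' with
    | leaf g => trivial
    | gate γ a b iha ihb =>
      refine ⟨iha h5.1, ihb h5.2.1, fun i h0 Y' hY' => ?_⟩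
      have h6 := h5.2.2 i h0 Y' hY'
      show _ ∉ V₀.I (1 * (M * (t + 1))) Y'
      rwa [one_mul]

end hit

end Pool.Agent.W936.RO
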