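import Mathlib
import Pool.Agent.H530R2.Spa2
import Pool.Agent.W936.RO.Hits

/-!
Extension of scalars for classes of polynomials.
-/

namespace Pool.Agent.W936.RO

open MvPolynomial Module Pool.Agent.H530R2

section sext0

/-- extension of scalars -/
noncomputable abbrev sext {n : ℕ} : MvPolynomial (Fin n) ℂ →+* MvPolynomial (Fin n) (RatFunc ℂ) :=
  map (algebraMap ℂ (RatFunc ℂ))

theorem ext_inj {n : ℕ} : Function.Injective (sext (n := n)) :=
  map_injective _ (algebraMap ℂ (RatFunc ℂ)).injective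

theorem ext_aeval {n : ℕ} {κ : Type} (g : κ → MvPolynomial (Fin n) ℂ) (p : MvPolynomial κ ℂ) :
    sext (aeval g p) = aeval (fun i => sext (g i)) (map (algebraMap ℂ (RatFunc ℂ)) p) := by
  induction p using MvPolynomial.induction_on with
  | C r =>
    rw [algHom_C, map_C, algHom_C]
    exact map_C _ _
  | add p q hp hq => rw [map_add, map_add, hp, hq, map_add, map_add]
  | mul_X p i hp =>
    rw [map_mul, map_mul, hp, map_mul, map_mul, aeval_X, map_X, aeval_X]

theorem ext_vars {n : ℕ} (g : MvPolynomial (Fin n) ℂ) : (sext g).vars = g.vars :=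
  vars_map_of_injective _ (algebraMap ℂ (RatFunc ℂ)).injective

theorem ext_dep {n κ : ℕ} {g : Fin κ → MvPolynomial (Fin n) ℂ}
    (h : ¬ AlgebraicIndependent ℂ g) :
    ¬ AlgebraicIndependent (RatFunc ℂ) (fun i => sext (g i)) := by
  intro hind
  apply h
  rw [algebraicIndependent_iff] at hind ⊢
  intro p hp
  have h1 := hind (map (algebraMap ℂ (RatFunc ℂ)) p) (by rw [← ext_aeval, hp, map_zero])
  exact (map_injective _ (algebraMap ℂ (RatFunc ℂ)).injective) (by rw [h1, map_zero])

theorem ext_adjoin {n : ℕ} {κ : Type} {g : κ → MvPolynomial (Fin n) ℂ}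
    {f : MvPolynomial (Fin n) ℂ} (h : f ∈ Algebra.adjoin ℂ (Set.range g)) :
    sext f ∈ Algebra.adjoin (RatFunc ℂ) (Set.range fun i => sext (g i)) := by
  rw [Algebra.adjoin_range_eq_range_aeval] at h ⊢
  obtain ⟨P, rfl⟩ := h
  exact ⟨map (algebraMap ℂ (RatFunc ℂ)) P, (ext_aeval g P).symm⟩

theorem Gn.ext {n : ℕ} {T : Set (MvPolynomial (Fin n) ℂ)}
    {T' : Set (MvPolynomial (Fin n) (RatFunc ℂ))} {A : Finset (Fin n)} {c : ℕ}
    {g : MvPolynomial (Fin n) ℂ} (h : Gn T A c g) (hT : ∀ x ∈ T, sext x ∈ T') :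
    Gn T' A c (sext g) := by
  obtain ⟨G, hG, hGc, hGT, hg⟩ := h
  refine ⟨sext '' G, hG.image _, (Set.ncard_image_le hG).trans hGc, ?_, ?_⟩
  · rintro _ ⟨x, hx, rfl⟩
    refine ⟨hT x (hGT x hx).1, ?_⟩
    rw [mem_supported, ext_vars]
    exact mem_supported.1 (hGT x hx).2
  · clear hGT hGc
    induction hg using Algebra.adjoin_induction with
    | mem x hx =>
      rcases hx with ⟨i, hi, rfl⟩ | hx
      · rw [map_X]
        exact Algebra.subset_adjoin (Or.inl ⟨i, hi, rfl⟩)
      · exact Algebra.subset_adjoin (Or.inr ⟨x, hx, rfl⟩)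
    | algebraMap r =>
      rw [MvPolynomial.algebraMap_eq, map_C]
      exact Subalgebra.algebraMap_mem _ _
    | add x y _ _ hx hy => rw [map_add]; exact Subalgebra.add_mem _ hx hy
    | mul x y _ _ hx hy => rw [map_mul]; exact Subalgebra.mul_mem _ hx hy

open Classical in
theorem cpart_card {n : ℕ} (f : MvPolynomial (Fin n) ℂ) (A : Finset (Fin n))
    (a : Fin n →₀ ℕ) : (cpart f A a).support.card ≤ f.support.card := by
  refine le_trans (Finset.card_le_card (t := f.support.image
    (fun e => e.filter (fun i => i ∉ A))) ?_) Finset.card_image_le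
  intro x hx
  unfold cpart at hx
  obtain ⟨e, he, hxe⟩ := Finset.mem_biUnion.1 (support_sum hx)
  rw [Finset.mem_singleton.1 (support_monomial_subset hxe)]
  exact Finset.mem_image_of_mem _ (Finset.mem_filter.1 he).1

open Classical in
/-- coefficients of a sparse polynomial with few exponents of every variable -/
theorem sparse_gn {n s w k : ℕ} {f : MvPolynomial (Fin n) ℂ} (hf : f.support.card ≤ s)
    (hw : ∀ i, (f.support.image fun a => a i).card ≤ w) {A : Finset (Fin n)} (hA : A.card ≤ k) :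
    Gn {g : MvPolynomial (Fin n) ℂ | g.support.card ≤ s} A ((w + 1) ^ k) f := by
  set E := f.support.image (fun e => e.filter (fun i => i ∈ A)) with hE
  have hEc : E.card ≤ (w + 1) ^ k := by
    have h1 : E.card ≤ (Fintype.piFinset fun i : {i // i ∈ A} =>
        f.support.image fun a => a i.1).card := by
      refine Finset.card_le_card_of_injOn (fun a i => a i.1) ?_ ?_
      · intro a ha
        obtain ⟨e, he, rfl⟩ := Finset.mem_image.1 (Finset.mem_coe.1 ha)
        refine Finset.mem_coe.2 (Fintype.mem_piFinset.2 fun i => Finset.mem_image.2 ⟨e, he, ?_⟩)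
        show e i.1 = (e.filter fun i => i ∈ A) i.1
        rw [Finsupp.filter_apply, if_pos i.2]
      · intro a ha b hb hab
        obtain ⟨e, he, rfl⟩ := Finset.mem_image.1 (Finset.mem_coe.1 ha)
        obtain ⟨e', he', rfl⟩ := Finset.mem_image.1 (Finset.mem_coe.1 hb)
        ext i
        by_cases hi : i ∈ A
        · exact congrFun hab ⟨i, hi⟩
        · rw [Finsupp.filter_apply, Finsupp.filter_apply, if_neg hi, if_neg hi]
    refine h1.trans ?_
    rw [Fintype.card_piFinset]
    calc ∏ i : {i // i ∈ A}, (f.support.image fun a => a i.1).card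
        ≤ ∏ _i : {i // i ∈ A}, (w + 1) :=
          Finset.prod_le_prod' fun i _ => (hw i.1).trans (Nat.le_succ w)
      _ = (w + 1) ^ A.card := by rw [Finset.prod_const, Finset.card_univ, Fintype.card_coe]
      _ ≤ (w + 1) ^ k := Nat.pow_le_pow_right (by omega) hA
  refine ⟨(E.image fun a => cpart f A a : Finset _), Finset.finite_toSet _, ?_, ?_, ?_⟩
  · rw [Set.ncard_coe_finset]
    exact Finset.card_image_le.trans hEc
  · intro x hx
    obtain ⟨a, _, rfl⟩ := Finset.mem_image.1 (Finset.mem_coe.1 hx)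
    exact ⟨(cpart_card f A a).trans hf, cpart_supported f A a⟩
  · have key : ∀ S : Subalgebra ℂ (MvPolynomial (Fin n) ℂ),
        (X '' (A : Set (Fin n)) : Set (MvPolynomial (Fin n) ℂ)) ⊆
          (S : Set (MvPolynomial (Fin n) ℂ)) →
        (∀ a ∈ E, cpart f A a ∈ S) → f ∈ S := by
      intro S hS1 hS2
      rw [cpart_sum f A]
      refine Subalgebra.sum_mem _ fun a ha => Subalgebra.mul_mem _ ?_ (hS2 a ha)
      have h2 : (monomial a 1 : MvPolynomial (Fin n) ℂ) ∈
          supported ℂ (A : Set (Fin n)) := by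
        rw [mem_supported, vars_monomial one_ne_zero]
        intro i hi
        obtain ⟨e, _, rfl⟩ := Finset.mem_image.1 ha
        rw [Finset.mem_coe, Finsupp.mem_support_iff, Finsupp.filter_apply] at hi
        by_contra hc
        exact hi (if_neg hc)
      exact Algebra.adjoin_le hS1 h2
    refine key _ (fun x hx => Algebra.subset_adjoin (Or.inl hx)) fun a ha => ?_
    exact Algebra.subset_adjoin (Or.inr (Finset.mem_coe.2 (Finset.mem_image_of_mem _ ha)))

/-- univariate polynomials -/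
theorem univ_gn {n s k : ℕ} {f : MvPolynomial (Fin n) ℂ} (hf : f.support.card ≤ s)
    (hv : f.vars.card ≤ 1) {A : Finset (Fin n)} (hk : 1 ≤ k) :
    Gn {g : MvPolynomial (Fin n) ℂ | g.support.card ≤ s} A k f := by
  by_cases h : (f.vars : Set (Fin n)) ⊆ A
  · exact Gn.supp (mem_supported.2 h)
  · refine Gn.self hf ?_ hk
    rw [mem_supported]
    obtain ⟨i, hi, hiA⟩ := Set.not_subset.1 h
    intro j hj
    have h1 := Finset.card_le_one.1 hv i (Finset.mem_coe.1 hi) j (Finset.mem_coe.1 hj)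
    rw [← h1]
    exact hiA

/-- the base family -/
noncomputable def fam (n_ N_ s_ : ℕ → ℕ) (h : ∀ k, (s_ k + 2) ^ k ≤ N_ k) : Fam (RatFunc ℂ) :=
  seqFam n_ (fun k => s_ k + 2) (fun k => Nat.le_add_left _ _)
    (fun k => bVan (n_ k) (N_ k)) (fun k _ h0 hs Y => bVan_hit h0 (hs.trans (h k)) Y)

/-- the families of classes -/
noncomputable def up (𝔎 : Fam (RatFunc ℂ)) : ℕ → Fam (RatFunc ℂ)
  | 0 => 𝔎
  | D + 1 => (up 𝔎 D).next

theorem fam_ok (n_ N_ s_ : ℕ → ℕ) (h : ∀ k, (s_ k + 2) ^ k ≤ N_ k) (D k : ℕ) :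
    bVan (n_ k) (N_ k) ∈ (up (fam n_ N_ s_ h) D).Ok k (n_ k) := by
  induction D with
  | zero => exact rfl
  | succ D ih => exact ih

theorem fam_mem (n_ N_ s_ : ℕ → ℕ) (h : ∀ k, (s_ k + 2) ^ k ≤ N_ k) (k : ℕ)
    {f : MvPolynomial (Fin (n_ k)) ℂ} (hf : f.support.card ≤ s_ k) :
    sext f ∈ (fam n_ N_ s_ h).K k (n_ k) 1 :=
  ⟨Unit, inferInstance, fun _ => f, by simp,
      fun _ => by rw [pow_one]; exact hf.trans (Nat.le_add_right _ _),
      Algebra.subset_adjoin ⟨(), rfl⟩⟩

theorem sh_bVan (n N : ℕ) : Sh (bVan n N) (bpt n N) 1 :=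
  ⟨le_rfl, fun j Y => by rw [mul_one]; rfl⟩

end sext0

end Pool.Agent.W936.RO
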